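import Pool.Agent.E8helper20.CTK3.StmD
import Pool.Agent.Y688.XK.BOX

/-!
# Project CTK3, part D1 (helper51): the count in a box, with the vertex `3`

Adapted from `Pool/Agent/R419/KF/Box.lean`.
-/

set_option autoImplicit false

open scoped Classical

namespace Pool.Agent.E8helper51.CTK3

open Finset
open Pool.Agent.Y692.QS (Ei)
open Pool.Agent.Y715.T.Rec (cs)
open Pool.Agent.Y715.T.RecG (Pq)
open Pool.Agent.Y703.XK (prs HB S_EQ S_LA GdA c9)
open Pool.Agent.Y688.XK (cs_symm sum_un ext_sum HB_sub)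
open Pool.Agent.R419.KF (wt wt_one wt_ne)
open Pool.Agent.E8helper20.CTK3 (Sol3 Gd3 Nd3 S_BOX3)

/-- the label of a prime with respect to the small primes and `3` -/
noncomputable def lb3 (S₀ : Finset Ei) (x : Ei) : Option S₀ → ZMod 3
  | none => cs x 3
  | some u => cs u x

/-- the weights -/
noncomputable def wo (M S₀ : Finset Ei) : Option S₀ → ZMod 3
  | none => 1
  | some u => wt M u

theorem wo_ne (M S₀ : Finset Ei) (u : Option S₀) : wo M S₀ u ≠ 0 := by
  rcases u with _ | u
  · exact one_ne_zero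
  · exact wt_ne M _

/-- the block of the small primes and `3` -/
noncomputable def AA (M S₀ : Finset Ei) : Option S₀ → Option S₀ → ZMod 3
  | none, none => 0
  | none, some v => wt M v * cs v 3
  | some u, none => wt M u * cs u 3
  | some u, some v => wt M u * wt M v * cs u v

/-- the good labels -/
def LN3 {ι : Type} (S₀ : Finset Ei) (β : ι → Option S₀ → ZMod 3) : Prop :=
  ∀ w : Option S₀ → ZMod 3, (∃ u, w u ≠ 0) → ∃ i, ∑ u, w u * β i u ≠ 0

theorem ext_symm {ι : Type} [Fintype ι] [LinearOrder ι] (α : prs ι → ZMod 3) (k l : ι) :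
    Pool.Agent.Y703.XK.ext α k l = Pool.Agent.Y703.XK.ext α l k := by
  unfold Pool.Agent.Y703.XK.ext
  by_cases h : (k, l) ∈ prs ι
  · have h' : ¬ (l, k) ∈ prs ι := by
      unfold prs at h ⊢
      rw [mem_filter] at h ⊢
      exact fun h2 => lt_asymm h.2 h2.2
    rw [dif_pos h, dif_neg h', dif_pos h]
  · by_cases h' : (l, k) ∈ prs ι
    · rw [dif_neg h, dif_pos h', dif_pos h']
    · rw [dif_neg h, dif_neg h', dif_neg h', dif_neg h]

theorem sum_lap {κ : Type} [Fintype κ] (R : κ → κ → ZMod 3) (hR : ∀ k l, R k l = R l k)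
    (d : κ → ZMod 3) : ∑ k, ∑ l, R k l * (d l - d k) = 0 := by
  have h1 : ∑ k, ∑ l, R k l * d k = ∑ k, ∑ l, R k l * d l := by
    rw [Finset.sum_comm]
    exact Finset.sum_congr rfl fun k _ => Finset.sum_congr rfl fun l _ => by rw [hR]
  simp only [mul_sub, Finset.sum_sub_distrib]
  rw [h1, sub_self]

section one
variable {ι : Type} [Fintype ι] [LinearOrder ι] {M S₀ : Finset Ei} {p : ι → Ei}

omit [LinearOrder ι] in
theorem nd3_iff : Nd3 S₀ (univ.image p) ↔ LN3 S₀ (fun i => lb3 S₀ (p i)) := by
  unfold Nd3 LN3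
  constructor
  · intro h w hw
    obtain ⟨v, hv⟩ : ∃ v : Ei → ZMod 3, ∀ n, v n = if h : n ∈ S₀ then w (some ⟨n, h⟩) else 0 :=
      ⟨_, fun _ => rfl⟩
    have hvu : ∀ u : S₀, v u = w (some u) := fun u => by rw [hv, dif_pos u.2]
    obtain ⟨x, hx, hx2⟩ := h (w none) v (by
      obtain ⟨u, hu⟩ := hw
      rcases u with _ | u
      · exact Or.inl hu
      · exact Or.inr ⟨u, u.2, by rw [hvu]; exact hu⟩)
    rw [Finset.mem_image] at hx
    obtain ⟨i, -, rfl⟩ := hx
    refine ⟨i, ?_⟩
    rw [← Finset.sum_coe_sort S₀] at hx2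
    intro h0
    apply hx2
    rw [← h0, Fintype.sum_option]
    congr 1
    refine Finset.sum_congr rfl fun u _ => ?_
    rw [hvu]
    rfl
  · intro h t v hw
    obtain ⟨i, hi⟩ := h (fun o => match o with
      | none => t
      | some u => v u) (by
        rcases hw with hw | ⟨u, hu0, hu⟩
        · exact ⟨none, hw⟩
        · exact ⟨some ⟨u, hu0⟩, hu⟩)
    refine ⟨p i, Finset.mem_image_of_mem _ (Finset.mem_univ _), ?_⟩
    rw [← Finset.sum_coe_sort S₀]
    rw [Fintype.sum_option] at hi
    exact hi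

theorem gd3_iff (hM : M ⊆ S₀) (hp : Function.Injective p) (hpr : ∀ i, Pq (p i))
    (hS₀ : ∀ u ∈ S₀, Pq u) (hd : ∀ i, p i ∉ S₀) :
    Gd3 M (S₀ ∪ univ.image p) ↔ GdA (AA M S₀) (fun u l => wo M S₀ u * lb3 S₀ (p l) u)
      (Pool.Agent.Y703.XK.ext fun e : prs ι => cs (p e.1.1) (p e.1.2)) := by
  have hw : ∀ i, wt M (p i) = 1 := fun i => wt_one fun h => hd i (hM h)
  have hsol : ∀ c : Ei → ZMod 3, Sol3 M (S₀ ∪ univ.image p) c ↔
      (∀ u : S₀, ∑ v : S₀, wt M u * wt M v * cs u v * (c v - c u) + wt M u * cs u 3 * (0 - c u) +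
        ∑ l, wt M u * cs u (p l) * (c (p l) - c u) = 0) ∧
      (∀ k : ι, ∑ u : S₀, wt M u * cs u (p k) * (c u - c (p k)) + cs (p k) 3 * (0 - c (p k)) +
        ∑ l, Pool.Agent.Y703.XK.ext (fun e : prs ι => cs (p e.1.1) (p e.1.2)) k l *
          (c (p l) - c (p k)) = 0) := by
    intro c
    have hsym : ∀ k : ι, ∑ u : S₀, wt M u * cs (p k) u * (c u - c (p k)) =
        ∑ u : S₀, wt M u * cs u (p k) * (c u - c (p k)) := by
      intro k
      refine Finset.sum_congr rfl fun u _ => ?_
      rw [cs_symm (hpr k) (hS₀ u u.2)]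
    have hrow : ∀ u : S₀, (∑ v : S₀, wt M u * wt M v * cs u v * (c v - c u) +
        wt M u * cs u 3 * (0 - c u) +
        ∑ l, wt M u * cs u (p l) * (c (p l) - c u)) = wt M u * ((∑ v : S₀, wt M v * cs u v *
          (c v - c u) + ∑ l, cs u (p l) * (c (p l) - c u)) - cs u 3 * c u) := by
      intro u
      have a1 : ∑ v : S₀, wt M u * wt M v * cs u v * (c v - c u) =
          wt M u * ∑ v : S₀, wt M v * cs u v * (c v - c u) := by
        rw [Finset.mul_sum]
        exact Finset.sum_congr rfl fun v _ => by ring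
      have a2 : ∑ l, wt M u * cs u (p l) * (c (p l) - c u) =
          wt M u * ∑ l, cs u (p l) * (c (p l) - c u) := by
        rw [Finset.mul_sum]
        exact Finset.sum_congr rfl fun v _ => by ring
      rw [a1, a2]
      ring
    unfold Sol3
    constructor
    · intro h
      refine ⟨fun u => ?_, fun k => ?_⟩
      · have := h u (Finset.mem_union_left _ u.2)
        rw [sum_un hp hd] at this
        simp only [hw, one_mul] at this
        rw [hrow, this, sub_self, mul_zero]
      · have := h (p k) (Finset.mem_union_right _ (Finset.mem_image_of_mem _ (Finset.mem_univ _)))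
        rw [sum_un hp hd, hsym] at this
        simp only [hw, one_mul] at this
        rw [ext_sum hpr k (fun l => c (p l))]
        linear_combination this
    · rintro ⟨h1, h2⟩ x hx
      rw [sum_un hp hd]
      simp only [hw, one_mul]
      rw [Finset.mem_union, Finset.mem_image] at hx
      rcases hx with hx | ⟨k, -, rfl⟩
      · have h3 := h1 ⟨x, hx⟩
        rw [hrow] at h3
        have h4 := (mul_eq_zero.1 h3).resolve_left (wt_ne M _)
        exact sub_eq_zero.1 h4
      · have := h2 k
        rw [ext_sum hpr k (fun l => c (p l))] at this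
        rw [hsym]
        linear_combination this
  unfold Gd3 GdA
  constructor
  · intro h c d h1 h2
    obtain ⟨c', hc'⟩ : ∃ c' : Ei → ZMod 3, ∀ n, c' n = (if h : n ∈ S₀ then c (some ⟨n, h⟩) else
      if h : ∃ l, p l = n then d h.choose else 0) - c none := ⟨_, fun n => rfl⟩
    have e1 : ∀ u : S₀, c' u = c (some u) - c none := by
      intro u
      rw [hc', dif_pos u.2]
    have e2 : ∀ l, c' (p l) = d l - c none := by
      intro l
      have hex : ∃ l', p l' = p l := ⟨l, rfl⟩
      rw [hc', dif_neg (hd l), dif_pos hex]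
      exact congrArg (fun x => d x - c none) (hp hex.choose_spec)
    have hs : Sol3 M (S₀ ∪ univ.image p) c' := by
      rw [hsol]
      refine ⟨fun u => ?_, fun k => ?_⟩
      · simp only [e1, e2]
        have h3 := h1 (some u)
        rw [Fintype.sum_option] at h3
        simp only [AA, wo, lb3] at h3
        simp only [sub_sub_sub_cancel_right]
        linear_combination h3
      · simp only [e1, e2]
        have h3 := h2 k
        rw [Fintype.sum_option] at h3
        simp only [wo, lb3] at h3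
        simp only [sub_sub_sub_cancel_right]
        linear_combination h3
    have h3 := h c' hs
    refine ⟨c none, fun u => ?_, fun l => ?_⟩
    · rcases u with _ | u
      · rfl
      · have h4 := h3 _ (Finset.mem_union_left _ u.2)
        rw [e1] at h4
        exact sub_eq_zero.1 h4
    · have h4 := h3 _ (Finset.mem_union_right _ (Finset.mem_image_of_mem p (Finset.mem_univ l)))
      rw [e2] at h4
      exact sub_eq_zero.1 h4
  · intro h c hc
    rw [hsol] at hc
    obtain ⟨cc, hcc⟩ : ∃ cc : Option S₀ → ZMod 3, cc = fun o => match o with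
      | none => 0
      | some u => c u := ⟨_, rfl⟩
    have q1 : ∀ u : S₀, ∑ v, AA M S₀ (some u) v * (cc v - cc (some u)) +
        ∑ l, wo M S₀ (some u) * lb3 S₀ (p l) (some u) * (c (p l) - cc (some u)) = 0 := by
      intro u
      have h3 := hc.1 u
      rw [Fintype.sum_option]
      simp only [AA, wo, lb3, hcc]
      linear_combination h3
    have q2 : ∀ k : ι, ∑ u, wo M S₀ u * lb3 S₀ (p k) u * (cc u - c (p k)) +
        ∑ l, Pool.Agent.Y703.XK.ext (fun e : prs ι => cs (p e.1.1) (p e.1.2)) k l *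
          (c (p l) - c (p k)) = 0 := by
      intro k
      have h3 := hc.2 k
      rw [Fintype.sum_option]
      simp only [wo, lb3, hcc]
      linear_combination h3
    have q3 : ∑ v, AA M S₀ none v * (cc v - cc none) +
        ∑ l, wo M S₀ none * lb3 S₀ (p l) none * (c (p l) - cc none) = 0 := by
      have s1 := sum_lap (AA M S₀) (by
        intro k l
        rcases k with _ | u <;> rcases l with _ | v
        · rfl
        · rfl
        · rfl
        · simp only [AA]
          rw [cs_symm (hS₀ u u.2) (hS₀ v v.2)]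
          ring) cc
      have s2 := sum_lap (Pool.Agent.Y703.XK.ext (fun e : prs ι => cs (p e.1.1) (p e.1.2)))
        (ext_symm _) (fun k => c (p k))
      have s3 : ∑ u, ∑ l, wo M S₀ u * lb3 S₀ (p l) u * (c (p l) - cc u) +
          ∑ k, ∑ u, wo M S₀ u * lb3 S₀ (p k) u * (cc u - c (p k)) = 0 := by
        rw [Finset.sum_comm, ← Finset.sum_add_distrib]
        refine Finset.sum_eq_zero fun k _ => ?_
        rw [← Finset.sum_add_distrib]
        refine Finset.sum_eq_zero fun u _ => ?_
        ring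
      have s4 : ∑ k, (∑ u, wo M S₀ u * lb3 S₀ (p k) u * (cc u - c (p k)) +
        ∑ l, Pool.Agent.Y703.XK.ext (fun e : prs ι => cs (p e.1.1) (p e.1.2)) k l *
          (c (p l) - c (p k))) = 0 := Finset.sum_eq_zero fun k _ => q2 k
      have s5 : ∑ u : S₀, (∑ v, AA M S₀ (some u) v * (cc v - cc (some u)) +
        ∑ l, wo M S₀ (some u) * lb3 S₀ (p l) (some u) * (c (p l) - cc (some u))) = 0 :=
        Finset.sum_eq_zero fun u _ => q1 u
      rw [Fintype.sum_option] at s1
      rw [Fintype.sum_option] at s3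
      rw [Finset.sum_add_distrib] at s4 s5
      rw [s2, add_zero] at s4
      rw [s4, add_zero] at s3
      linear_combination s1 + s3 - s5
    obtain ⟨t, ht1, ht2⟩ := h cc (fun l => c (p l)) (fun u => by
      rcases u with _ | u
      · exact q3
      · exact q1 u) q2
    have ht0 : t = 0 := by
      have := ht1 none
      rw [hcc] at this
      exact this.symm
    subst ht0
    intro x hx
    rw [Finset.mem_union, Finset.mem_image] at hx
    rcases hx with hx | ⟨k, -, rfl⟩
    · have := ht1 (some ⟨x, hx⟩)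
      rw [hcc] at this
      exact this
    · exact ht2 k

end one

/-- **The count in a box.** -/
theorem t_BOX3 : S_BOX3 := by
  intro hEQ hLA ι _ _ C X κ M S₀ hM hκ hCX hHB hS₀ hC hdis hcard
  obtain ⟨cc, hcc⟩ : ∃ cc : ℝ, cc = 3 * (3 ^ (S₀.card + 1) / 3 ^ Fintype.card ι) := ⟨_, rfl⟩
  obtain ⟨R, hR⟩ : ∃ R : ℝ, R = 3 ^ (prs ι).card * (κ * ∏ j, (X j : ℝ)) := ⟨_, rfl⟩
  have hcc0 : 0 ≤ cc := by rw [hcc]; positivity
  have hR0 : 0 ≤ R := by
    rw [hR]
    exact mul_nonneg (by positivity)
      (mul_nonneg hκ (Finset.prod_nonneg fun j _ => by positivity))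
  have hco : Fintype.card (Option S₀) = S₀.card + 1 := by
    rw [Fintype.card_option, Fintype.card_coe]
  -- facts on tuples
  have hinj : ∀ p ∈ Fintype.piFinset C, Function.Injective p := by
    intro p hp i j hij
    rw [Fintype.mem_piFinset] at hp
    by_contra hne
    have h1 := Finset.disjoint_left.1 (hdis i j hne) (hp i)
    rw [hij] at h1
    exact h1 (hp j)
  have hd : ∀ p ∈ Fintype.piFinset C, ∀ i, p i ∉ S₀ := by
    intro p hp i
    rw [Fintype.mem_piFinset] at hp
    exact (hC i _ (hp i)).2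
  have hpr : ∀ p ∈ Fintype.piFinset C, ∀ i, Pq (p i) := by
    intro p hp i
    rw [Fintype.mem_piFinset] at hp
    exact (hC i _ (hp i)).1
  -- the part with given labels
  have h1 : ∀ β : ι → Option S₀ → ZMod 3, LN3 S₀ β →
      |(((Fintype.piFinset C).filter fun p => (fun i => lb3 S₀ (p i)) = β ∧
          Gd3 M (S₀ ∪ univ.image p)).card : ℝ) -
        c9 * (((Fintype.piFinset C).filter fun p => (fun i => lb3 S₀ (p i)) = β).card : ℝ)| ≤
      cc * (((Fintype.piFinset C).filter fun p => (fun i => lb3 S₀ (p i)) = β).card : ℝ) + R := by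
    intro β hβ
    obtain ⟨C', hC'⟩ : ∃ C' : ι → Finset Ei, C' = fun i => (C i).filter fun q => lb3 S₀ q = β i :=
      ⟨_, rfl⟩
    have hpi : (Fintype.piFinset C).filter (fun p => (fun i => lb3 S₀ (p i)) = β) =
        Fintype.piFinset C' := by
      ext p
      simp only [Finset.mem_filter, Fintype.mem_piFinset, hC']
      constructor
      · rintro ⟨h2, h3⟩ i
        exact ⟨h2 i, congrFun h3 i⟩
      · intro h2
        exact ⟨fun i => (h2 i).1, funext fun i => (h2 i).2⟩
    have h2 := hLA (Option S₀) ι (AA M S₀) (fun u l => wo M S₀ u * β l u)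
      (by rw [hco]; exact hcard)
      (by
        intro u v
        rcases u with _ | u <;> rcases v with _ | v
        · rfl
        · rfl
        · rfl
        · simp only [AA]
          rw [cs_symm (hS₀ u u.2) (hS₀ v v.2), mul_comm (wt M u) (wt M v)])
      (fun w hw => by
        obtain ⟨u, hu⟩ := hw
        obtain ⟨k, hk⟩ := hβ (fun u => w u * wo M S₀ u) ⟨u, mul_ne_zero hu (wo_ne M S₀ u)⟩
        refine ⟨k, fun h0 => hk ?_⟩
        rw [← h0]
        exact Finset.sum_congr rfl fun u _ => mul_assoc _ _ _)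
    obtain ⟨Q, hQ⟩ : ∃ Q : (prs ι → ZMod 3) → Prop, Q = fun α =>
        GdA (AA M S₀) (fun u l => wo M S₀ u * β l u)
          (Pool.Agent.Y703.XK.ext α) := ⟨_, rfl⟩
    have h3 := hEQ ι C' X κ hκ
      (fun i => (Finset.card_le_card (by rw [hC']; exact Finset.filter_subset _ _)).trans (hCX i))
      (by rw [hC']; exact HB_sub hHB fun i q => lb3 S₀ q = β i) Q
    have h4 : ((Fintype.piFinset C).filter fun p => (fun i => lb3 S₀ (p i)) = β ∧
        Gd3 M (S₀ ∪ univ.image p)) = ((Fintype.piFinset C').filter fun p =>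
          Q fun e => cs (p e.1.1) (p e.1.2)) := by
      rw [← hpi, Finset.filter_filter]
      refine Finset.filter_congr fun p hp => ?_
      refine and_congr_right fun hl => ?_
      rw [gd3_iff hM (hinj p hp) (hpr p hp) hS₀ (hd p hp)]
      subst hl
      rw [hQ]
    have h5 : (((Fintype.piFinset C').card : ℕ) : ℝ) = ∏ j, ((C' j).card : ℝ) := by
      rw [Fintype.card_piFinset]
      push_cast
      rfl
    rw [h4, hpi, h5]
    rw [hco, ← hcc] at h2
    rw [← hR] at h3
    obtain ⟨n, hn⟩ : ∃ n : ℝ, n = (((Fintype.piFinset C').filter fun p =>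
          Q fun e => cs (p e.1.1) (p e.1.2)).card : ℝ) := ⟨_, rfl⟩
    obtain ⟨q, hq⟩ : ∃ q : ℝ, q = ((univ.filter Q).card : ℝ) / 3 ^ (prs ι).card := ⟨_, rfl⟩
    obtain ⟨P, hP⟩ : ∃ P : ℝ, P = ∏ j, ((C' j).card : ℝ) := ⟨_, rfl⟩
    have hP0 : 0 ≤ P := by
      rw [hP]
      exact Finset.prod_nonneg fun j _ => by positivity
    have h2' : |q - c9| ≤ cc := by
      rw [hq, hQ]
      exact h2
    rw [← hn, ← hq, ← hP] at h3
    rw [← hn, ← hP]
    have h6 : |n - c9 * P| ≤ |n - q * P| + |q - c9| * P := by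
      have h7 : n - c9 * P = (n - q * P) + (q - c9) * P := by ring
      have h8 : |(q - c9) * P| = |q - c9| * P := by rw [abs_mul, abs_of_nonneg hP0]
      rw [h7, ← h8]
      exact abs_add_le _ _
    have h7 : |q - c9| * P ≤ cc * P := mul_le_mul_of_nonneg_right h2' hP0
    linarith
  -- sum over the labels
  obtain ⟨LL, hLL⟩ : ∃ LL : Finset (ι → Option S₀ → ZMod 3),
      LL = univ.filter (fun β => LN3 S₀ β) := ⟨_, rfl⟩
  have hfib : ∀ T : (ι → Ei) → Prop,
      (((Fintype.piFinset C).filter fun p => Nd3 S₀ (univ.image p) ∧ T p).card : ℝ) =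
      ∑ β ∈ LL, (((Fintype.piFinset C).filter fun p =>
        (fun i => lb3 S₀ (p i)) = β ∧ T p).card : ℝ) := by
    intro T
    rw [Finset.card_eq_sum_card_fiberwise (f := fun (p : ι → Ei) (i : ι) => lb3 S₀ (p i))
      (t := LL) (by
        intro p hp
        rw [Finset.mem_coe, Finset.mem_filter] at hp
        rw [Finset.mem_coe, hLL, Finset.mem_filter]
        exact ⟨Finset.mem_univ _, nd3_iff.1 hp.2.1⟩)]
    push_cast
    refine Finset.sum_congr rfl fun β hβ => ?_
    rw [hLL, Finset.mem_filter] at hβ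
    congr 2
    ext p
    simp only [Finset.mem_filter]
    constructor
    · rintro ⟨⟨h3, h4, h4'⟩, h5⟩
      exact ⟨h3, h5, h4'⟩
    · rintro ⟨h3, h4, h5⟩
      refine ⟨⟨h3, ?_, h5⟩, h4⟩
      rw [nd3_iff, h4]
      exact hβ.2
  have hf1 := hfib fun p => Gd3 M (S₀ ∪ univ.image p)
  have hf2 := hfib fun _ => True
  simp only [and_true] at hf2
  rw [← hcc, hf1, hf2, Finset.mul_sum, ← Finset.sum_sub_distrib]
  refine (Finset.abs_sum_le_sum_abs _ _).trans ?_
  refine (Finset.sum_le_sum fun β hβ => h1 β (by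
    rw [hLL] at hβ
    exact (Finset.mem_filter.1 hβ).2)).trans ?_
  rw [Finset.sum_add_distrib, ← Finset.mul_sum, Finset.sum_const, nsmul_eq_mul]
  have h5 : ((LL.card : ℕ) : ℝ) ≤ 3 ^ ((S₀.card + 1) * Fintype.card ι) := by
    have h6 : LL.card ≤ Fintype.card (ι → Option S₀ → ZMod 3) :=
      Finset.card_le_univ _
    rw [Fintype.card_fun, Fintype.card_fun, ZMod.card, hco, ← pow_mul] at h6
    exact_mod_cast h6
  have h6 := mul_le_mul_of_nonneg_right h5 hR0
  rw [pow_add, mul_assoc, ← hR]
  linarith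

end Pool.Agent.E8helper51.CTK3
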