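import Pool.Agent.E8helper20.CTK3.StmD

/-!
# Project CTK3, part D2 (helper51): mean values of the characters twisted modulo `9`

Adapted from `Pool/Agent/Y699/E/Hal2.lean`.
-/

set_option autoImplicit false

open Finset

namespace Pool.Agent.E8helper51.CTK3

open Pool.Agent.Y692.QS (Ei w nr)
open Pool.Agent.Y715.T.Rec (cs)
open Pool.Agent.Y715.T.RecG (Pq)
open Pool.Agent.Y699.E
open Pool.Agent.E8helper20.CTK3 (yd S_HAL3)
open scoped ComplexConjugate

/-- cubic characters of primary elements -/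
structure CP (χ : Ei → ℂ) : Prop where
  one : χ 1 = 1
  mul : ∀ a b, prm a → prm b → χ (a * b) = χ a * χ b
  val : ∀ a, χ a = 0 ∨ χ a = 1 ∨ χ a ^ 2 + χ a + 1 = 0

lemma prm_pow {a : Ei} (h : prm a) (j : ℕ) : prm (a ^ j) := by
  induction j with
  | zero => rw [pow_zero]; exact prm_one
  | succ j ih => rw [pow_succ]; exact prm_mul ih h

namespace CP

variable {χ : Ei → ℂ}

lemma norm_le (h : CP χ) (a : Ei) : ‖χ a‖ ≤ 1 := by
  rcases h.val a with h1 | h1 | h1
  · rw [h1]; simp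
  · rw [h1]; simp
  · have h2 : χ a ^ 3 = 1 := by linear_combination (χ a - 1) * h1
    have h3 := congrArg norm h2
    rw [norm_pow, norm_one] at h3
    exact ((pow_eq_one_iff_of_nonneg (norm_nonneg _) (by norm_num)).1 h3).le

lemma sq (h : CP χ) (a : Ei) : χ a ^ 2 = conj (χ a) := by
  rcases h.val a with h1 | h1 | h1
  · rw [h1]; simp
  · rw [h1]; simp
  · exact CH.cube_conj h1

lemma pow (h : CP χ) {a : Ei} (ha : prm a) (j : ℕ) : χ (a ^ j) = χ a ^ j := by
  induction j with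
  | zero => rw [pow_zero, pow_zero, h.one]
  | succ j ih => rw [pow_succ, pow_succ, h.mul _ _ (prm_pow ha j) ha, ih]

end CP

lemma cs1_mulP {χ : Ei → ℂ} (h : CP χ) {π m : Ei} (hπ : Pq π) (hm : prm m) (hd : ¬ π ∣ m) (k : ℕ) :
    cs1 χ (π ^ k * m) = (∑ i ∈ range (k + 1), χ π ^ i) * cs1 χ m := by
  unfold cs1
  rw [sum_DP_mul hπ hm hd, sum_mul]
  refine sum_congr rfl fun j _ => ?_
  rw [mul_sum]
  refine sum_congr rfl fun d hd' => ?_
  rw [mem_DP (prm_ne_zero hm)] at hd'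
  rw [h.mul _ _ (prm_pow (pq_prm hπ) _) hd'.1, h.pow (pq_prm hπ)]

lemma cs2_mulP {χ : Ei → ℂ} (h : CP χ) {π m : Ei} (hπ : Pq π) (hm : prm m) (hd : ¬ π ∣ m) (k : ℕ) :
    cs2 χ (π ^ k * m) = (∑ j ∈ range (k + 1), χ π ^ j * ∑ i ∈ range (j + 1), χ π ^ i) * cs2 χ m := by
  unfold cs2
  rw [sum_DP_mul hπ hm hd, sum_mul]
  refine sum_congr rfl fun j _ => ?_
  rw [mul_sum]
  refine sum_congr rfl fun d hd' => ?_
  rw [mem_DP (prm_ne_zero hm)] at hd'
  rw [cs1_mulP h hπ hd'.1 (fun h1 => hd (h1.trans hd'.2)),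
    h.mul _ _ (prm_pow (pq_prm hπ) _) hd'.1, h.pow (pq_prm hπ)]
  ring

/-- comparison with the convolution -/
theorem conv_leP {χ : Ei → ℂ} (h : CP χ) : ∀ n : Ei, prm n →
    ∃ r : ℝ, cs2 χ n = (r : ℂ) ∧ mf (fun π => 1 + 2 * (χ π).re) n ≤ r := by
  refine pp_induction ?_ ?_
  · refine ⟨1, ?_, ?_⟩
    · unfold cs2 cs1
      rw [DP_one, sum_singleton, DP_one, sum_singleton, h.one]
      simp
    · unfold mf
      rw [PD_one]
      simp
  · rintro π m k hπ hm hd hk ⟨r, h1, h2⟩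
    obtain ⟨r', h3, h4⟩ := coef_ge (h.val π) hk
    refine ⟨r' * r, ?_, ?_⟩
    · rw [cs2_mulP h hπ hm hd, h3, h1]
      push_cast
      ring
    · have e : mf (fun π => 1 + 2 * (χ π).re) (π ^ k * m) =
          (1 + 2 * (χ π).re) * mf (fun π => 1 + 2 * (χ π).re) m := by
        unfold mf
        classical
        rw [PD_pow_mul hπ hm hk, prod_insert (notMem_PD hm hd)]
      rw [e]
      have h5 := re_nonneg (h.val π)
      exact mul_le_mul h4 h2 (mf_nonneg (fun π => re_nonneg (h.val π)) m) (h5.trans h4)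

/-- the sum of the convolution -/
theorem conv_boundP {χ : Ei → ℂ} (h : CP χ) {B : ℝ}
    (hB : ∀ Y : ℕ, ‖∑ d ∈ PB Y, χ d / nrm d‖ ≤ B) (V : ℕ) :
    ∑ n ∈ PB V, mf (fun π => 1 + 2 * (χ π).re) n / nrm n ≤ (32 * lg V) ^ 2 * B := by
  classical
  have hB0 : 0 ≤ B := (norm_nonneg _).trans (hB 0)
  have hl := lg_pos V
  choose! r hr1 hr2 using conv_leP h
  have e1 : ∑ n ∈ PB V, mf (fun π => 1 + 2 * (χ π).re) n / nrm n ≤ ‖∑ n ∈ PB V, cs2 χ n / nrm n‖ := by
    have e2 : ∑ n ∈ PB V, cs2 χ n / nrm n = ((∑ n ∈ PB V, r n / nrm n : ℝ) : ℂ) := by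
      rw [Complex.ofReal_sum]
      refine sum_congr rfl fun n hn => ?_
      rw [hr1 n (mem_PB.1 hn).2]
      push_cast
      rfl
    rw [e2, Complex.norm_real]
    refine le_trans (sum_le_sum fun n hn => ?_) (le_abs_self _)
    exact div_le_div_of_nonneg_right (hr2 n (mem_PB.1 hn).2) (Nat.cast_nonneg _)
  refine e1.trans ?_
  have e3 : ∑ n ∈ PB V, cs2 χ n / nrm n = ∑ k ∈ PB V, (1 / (nrm k : ℂ)) *
      ∑ d ∈ PB (V / nrm k), χ d * cs1 χ d / nrm d := by
    have e4 := conv_sum (fun n d => χ d * cs1 χ d / (nrm n : ℂ)) V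
    have e5 : ∑ n ∈ PB V, cs2 χ n / nrm n = ∑ n ∈ PB V, ∑ d ∈ DP n, χ d * cs1 χ d / (nrm n : ℂ) := by
      refine sum_congr rfl fun n _ => ?_
      unfold cs2
      rw [sum_div]
    rw [e5, e4]
    refine sum_congr rfl fun k _ => ?_
    rw [mul_sum]
    refine sum_congr rfl fun d _ => ?_
    rw [nrm_mul]
    push_cast
    rw [one_div_mul_eq_div, div_div]
  have e6 : ∀ Y : ℕ, Y ≤ V → ‖∑ d ∈ PB Y, χ d * cs1 χ d / nrm d‖ ≤ (32 * lg V) * B := by
    intro Y hY
    have e7 : ∑ d ∈ PB Y, χ d * cs1 χ d / nrm d = ∑ b ∈ PB Y, (χ b / nrm b) *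
        ∑ c ∈ PB (Y / nrm b), conj (χ c / nrm c) := by
      have e4 := conv_sum (fun n d => χ n * χ d / (nrm n : ℂ)) Y
      have e5 : ∑ d ∈ PB Y, χ d * cs1 χ d / nrm d = ∑ n ∈ PB Y, ∑ d ∈ DP n, χ n * χ d / (nrm n : ℂ) := by
        refine sum_congr rfl fun n _ => ?_
        unfold cs1
        rw [mul_sum, sum_div]
      rw [e5, e4]
      refine sum_congr rfl fun b hb => ?_
      rw [mul_sum]
      refine sum_congr rfl fun c hc => ?_
      rw [map_div₀, ← h.sq, h.mul _ _ (mem_PB.1 hc).2 (mem_PB.1 hb).2, nrm_mul]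
      push_cast
      rw [Complex.conj_natCast]
      rw [div_mul_div_comm]
      congr 1 <;> ring
    rw [e7]
    refine (norm_sum_le _ _).trans ?_
    have e8 : ∀ b ∈ PB Y, ‖(χ b / nrm b) * ∑ c ∈ PB (Y / nrm b), conj (χ c / nrm c)‖ ≤ B * (1 / nrm b) := by
      intro b _
      rw [norm_mul, ← map_sum, Complex.norm_conj, mul_comm B]
      apply mul_le_mul _ (hB _) (norm_nonneg _) (by positivity)
      rw [norm_div, Complex.norm_natCast]
      exact div_le_div_of_nonneg_right (h.norm_le b) (Nat.cast_nonneg _)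
    refine (sum_le_sum e8).trans ?_
    rw [← mul_sum]
    have e9 := hsum Y
    have e10 := lg_mono hY
    calc B * ∑ b ∈ PB Y, (1 : ℝ) / nrm b ≤ B * (32 * lg V) :=
          mul_le_mul_of_nonneg_left (e9.trans (by linarith)) hB0
      _ = _ := by ring
  rw [e3]
  refine (norm_sum_le _ _).trans ?_
  have e8 : ∀ k ∈ PB V, ‖(1 / (nrm k : ℂ)) * ∑ d ∈ PB (V / nrm k), χ d * cs1 χ d / nrm d‖ ≤
      ((32 * lg V) * B) * (1 / nrm k) := by
    intro k _
    rw [norm_mul, mul_comm ((32 * lg V) * B)]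
    apply mul_le_mul _ (e6 _ (Nat.div_le_self _ _)) (norm_nonneg _) (by positivity)
    rw [norm_div, Complex.norm_natCast, norm_one]
  refine (sum_le_sum e8).trans ?_
  rw [← mul_sum]
  have e9 := hsum V
  calc 32 * lg V * B * ∑ b ∈ PB V, (1 : ℝ) / nrm b ≤ 32 * lg V * B * (32 * lg V) :=
        mul_le_mul_of_nonneg_left e9 (by positivity)
    _ = _ := by ring

/-! ### the second digit -/

lemma re_three : (3 : Ei).re = 3 := rfl
lemma im_three : (3 : Ei).im = 0 := rfl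
lemma re_nine : (9 : Ei).re = 9 := rfl
lemma im_nine : (9 : Ei).im = 0 := rfl
lemma re_one' : (1 : Ei).re = 1 := rfl
lemma im_one' : (1 : Ei).im = 0 := rfl

lemma yd_of {a x : Ei} (h : a = 1 + 3 * x) : yd a = ((x.im : ℤ) : ZMod 3) := by
  unfold yd
  have h1 : a.im = 3 * x.im := by
    rw [h]
    simp [re_three, im_three, im_one']
  rw [h1, Int.mul_ediv_cancel_left _ (by norm_num)]

lemma prm_iff {a : Ei} : prm a ↔ ∃ x : Ei, a = 1 + 3 * x := by
  unfold prm
  constructor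
  · rintro ⟨x, hx⟩
    exact ⟨x, by linear_combination hx⟩
  · rintro ⟨x, hx⟩
    exact ⟨x, by linear_combination hx⟩

lemma yd_mul {a b : Ei} (ha : prm a) (hb : prm b) : yd (a * b) = yd a + yd b := by
  obtain ⟨x, rfl⟩ := prm_iff.1 ha
  obtain ⟨y, rfl⟩ := prm_iff.1 hb
  have e : (1 + 3 * x) * (1 + 3 * y) = 1 + 3 * (x + y + 3 * (x * y)) := by ring
  rw [yd_of e, yd_of rfl, yd_of rfl]
  have e2 : (x + y + 3 * (x * y)).im = x.im + y.im + 3 * (x * y).im := by
    simp [re_three, im_three]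
  rw [e2]
  push_cast
  have h3 : (3 : ZMod 3) = 0 := by decide
  rw [h3, zero_mul, add_zero]

lemma yd_one : yd 1 = 0 := by
  rw [yd_of (x := 0) (by ring)]
  simp

lemma yd_per {a b : Ei} (h : (9 : Ei) ∣ a - b) : yd a = yd b := by
  obtain ⟨c, hc⟩ := h
  have h1 : a.im = b.im + 3 * (3 * c.im) := by
    have h2 : a = b + 9 * c := by linear_combination hc
    rw [h2]
    simp [re_nine, im_nine]
    ring
  unfold yd
  rw [h1, Int.add_mul_ediv_left _ _ (by norm_num)]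
  push_cast
  have h3 : (3 : ZMod 3) = 0 := by decide
  rw [h3, zero_mul, add_zero]

/-- the twisted character -/
noncomputable def ch (t : ZMod 3) (A B a : Ei) : ℂ := ez (t * yd a) * xab A B a

lemma ch_cp (t : ZMod 3) {A B : Ei} (hA : PS A) (hB : PS B) : CP (ch t A B) := by
  have hx := xab_ch hA hB
  refine ⟨?_, ?_, ?_⟩
  · unfold ch
    rw [hx.one, yd_one, mul_zero, ez_zero, one_mul]
  · intro a b ha hb
    unfold ch
    rw [hx.mul, yd_mul ha hb, mul_add, ez_add]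
    ring
  · intro a
    unfold ch xab
    rcases jac_cases A a with h | ⟨c, h⟩
    · left; rw [h, zero_mul, mul_zero]
    · rcases jac_cases B a with h' | ⟨c', h'⟩
      · left; rw [h', map_zero, mul_zero, mul_zero]
      · right
        rw [h, h', conj_ez, ← ez_add, ← ez_add]
        exact ez_val _

open Classical in
/-- the function on all elements -/
noncomputable def ff (t : ZMod 3) (A B a : Ei) : ℂ := if prm a then ch t A B a else 0

lemma nrm_nine : nrm (9 : Ei) = 81 := by decide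

lemma nine_ne : (9 : Ei) ≠ 0 := by decide

lemma ff_sum {t : ZMod 3} (ht : t ≠ 0) {A B : Ei} (hA : PS A) (hB : PS B) (V : ℕ) :
    ‖∑ a ∈ ZB V, ff t A B a‖ ≤ 243 * (nrm A * nrm B) * (3 * Real.sqrt V + 1) := by
  classical
  have hq : 9 * (A * B) ≠ 0 := mul_ne_zero nine_ne (mul_ne_zero hA.ne hB.ne)
  have hn : prm (A * B) := prm_mul hA.prm hB.prm
  obtain ⟨k, hk⟩ := prm_iff.1 hn
  set c : Ei := 1 + 3 * (w * (A * B)) with hc
  have hcp : prm c := prm_iff.2 ⟨_, hc⟩
  have hyc : yd c = 1 := by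
    rw [yd_of hc, hk]
    have e : (w * (1 + 3 * k)).im = 1 + 3 * (k.re - k.im) := by
      simp [Pool.Agent.Y692.QS.w, re_three, im_three, re_one', im_one']
      ring
    rw [e]
    push_cast
    have h3 : (3 : ZMod 3) = 0 := by decide
    rw [h3, zero_mul, add_zero]
  have hcA : A ∣ c - 1 := ⟨3 * w * B, by rw [hc]; ring⟩
  have hcB : B ∣ c - 1 := ⟨3 * w * A, by rw [hc]; ring⟩
  have hcop : IsCoprime c (9 * (A * B)) := by
    refine IsCoprime.mul_right ?_ ?_
    · refine ⟨1 - 3 * (w * (A * B)), (w * (A * B)) ^ 2, ?_⟩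
      rw [hc]
      ring
    · exact ⟨1, -(3 * w), by rw [hc]; ring⟩
  have hjA : jac A c = 1 := by rw [jac_per hA.ne hcA, jac_one_right hA.ne]
  have hjB : jac B c = 1 := by rw [jac_per hB.ne hcB, jac_one_right hB.ne]
  have hcp' := ch_cp t hA hB
  have hez : ez t ≠ 1 := ez_ne ht
  have h3 := csum hq (f := ff t A B) (c := c) (z := ez t) ?_ ?_ hcop hez ?_ V
  · refine h3.trans (le_of_eq ?_)
    rw [nrm_mul, nrm_mul, nrm_nine]
    push_cast
    ring
  · intro a b hab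
    unfold ff
    have e0 : (9 : Ei) ∣ a - b := (dvd_mul_right _ _).trans hab
    have e1 : (3 : Ei) ∣ a - b := (Dvd.intro (3 : Ei) (by norm_num)).trans e0
    have e2 : A ∣ a - b := ((dvd_mul_right _ _).trans (dvd_mul_left _ _)).trans hab
    have e3 : B ∣ a - b := ((dvd_mul_left _ _).trans (dvd_mul_left _ _)).trans hab
    have e4 : prm a ↔ prm b := by
      unfold prm
      constructor
      · intro h
        have := dvd_sub h e1
        have e : a - 1 - (a - b) = b - 1 := by ring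
        rwa [e] at this
      · intro h
        have := dvd_add h e1
        have e : b - 1 + (a - b) = a - 1 := by ring
        rwa [e] at this
    unfold ch xab
    rw [jac_per hA.ne e2, jac_per hB.ne e3, yd_per e0]
    by_cases h : prm a
    · rw [if_pos h, if_pos (e4.1 h)]
    · rw [if_neg h, if_neg (fun hh => h (e4.2 hh))]
  · intro a
    unfold ff
    split_ifs
    · exact hcp'.norm_le a
    · simp
  · intro a
    unfold ff
    have e4 : prm (c * a) ↔ prm a :=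
      ⟨fun h => prm_cancel hcp h, fun h => prm_mul hcp h⟩
    by_cases h : prm a
    · rw [if_pos h, if_pos (e4.2 h), hcp'.mul _ _ hcp h]
      congr 1
      unfold ch xab
      rw [hjA, hjB, hyc, mul_one, map_one, mul_one, mul_one]
    · rw [if_neg h, if_neg (fun hh => h (e4.1 hh)), mul_zero]

lemma chP_le {t : ZMod 3} (ht : t ≠ 0) {A B : Ei} (hA : PS A) (hB : PS B) {v : ℕ} (hv : 1 ≤ v) :
    ‖∑ d ∈ PB v, ch t A B d‖ ≤ 972 * (nrm A * nrm B : ℕ) * Real.sqrt v := by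
  classical
  have h := ff_sum ht hA hB v
  have e : ∑ a ∈ ZB v, ff t A B a = ∑ d ∈ PB v, ch t A B d := by
    unfold PB
    rw [sum_filter]
    refine sum_congr rfl fun a _ => ?_
    unfold ff
    rfl
  rw [e] at h
  have h2 : (1 : ℝ) ≤ Real.sqrt v := Real.one_le_sqrt.2 (by exact_mod_cast hv)
  have h3 : (0 : ℝ) ≤ (nrm A : ℝ) * nrm B := by positivity
  refine h.trans ?_
  push_cast
  nlinarith

lemma chP_le' {χ : Ei → ℂ} (h : CP χ) {v : ℕ} (hv : 1 ≤ v) : ‖∑ d ∈ PB v, χ d‖ ≤ 16 * v := by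
  refine (norm_sum_le _ _).trans ((sum_le_sum fun d _ => h.norm_le _).trans ?_)
  rw [sum_const, nsmul_eq_mul, mul_one]
  exact card_PB_le hv

/-- partial sums of the L-series at 1 -/
theorem chP_log {t : ZMod 3} (ht : t ≠ 0) {A B : Ei} (hA : PS A) (hB : PS B) (Y : ℕ) :
    ‖∑ d ∈ PB Y, ch t A B d / nrm d‖ ≤ 1992 * lg (nrm A * nrm B) := by
  classical
  have hN1 : 1 ≤ nrm A * nrm B := Nat.mul_pos (nrm_pos' hA.ne) (nrm_pos' hB.ne)
  have hch := ch_cp t hA hB
  have hle := fun (v : ℕ) (hv : 1 ≤ v) => chP_le ht hA hB hv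
  set χ := ch t A B with hχ
  set N := nrm A * nrm B with hN
  have hlg := one_le_lg N
  rcases Nat.eq_zero_or_pos Y with h0 | hY
  · have : PB Y = ∅ := by
      rw [eq_empty_iff_forall_notMem]
      intro x hx
      rw [mem_PB] at hx
      have := nrm_pos' (prm_ne_zero hx.2)
      omega
    rw [this, sum_empty, norm_zero]
    linarith
  have hYr : (0 : ℝ) < Y := by exact_mod_cast hY
  -- summation by parts
  have e1 : ∑ d ∈ PB Y, χ d / nrm d = (∑ d ∈ PB Y, χ d) * ((1 / Y : ℝ) : ℂ) +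
      ∑ v ∈ Ico 1 Y, (∑ d ∈ PB v, χ d) * ((1 / ((v : ℝ) * (v + 1)) : ℝ) : ℂ) := by
    have e2 : ∀ d ∈ PB Y, χ d / nrm d = χ d * ((1 / Y : ℝ) : ℂ) +
        ∑ v ∈ Ico 1 Y, if nrm d ≤ v then χ d * ((1 / ((v : ℝ) * (v + 1)) : ℝ) : ℂ) else 0 := by
      intro d hd
      rw [mem_PB] at hd
      have hd1 := nrm_pos' (prm_ne_zero hd.2)
      have h2 := inv_tel (nrm d) hd1 Y hd.1
      have h3 : χ d / (nrm d : ℂ) = χ d * ((1 / (nrm d : ℝ) : ℝ) : ℂ) := by
        push_cast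
        rw [mul_one_div]
      rw [h3, h2, Complex.ofReal_add, mul_add]
      congr 1
      rw [Complex.ofReal_sum, mul_sum, ← sum_filter]
      refine sum_congr ?_ fun _ _ => rfl
      ext v
      rw [mem_filter, mem_Ico, mem_Ico]
      constructor
      · rintro ⟨a1, a2⟩; exact ⟨⟨by omega, a2⟩, a1⟩
      · rintro ⟨⟨-, a2⟩, a1⟩; exact ⟨a1, a2⟩
    rw [sum_congr rfl e2, sum_add_distrib, ← sum_mul, sum_comm]
    congr 1
    refine sum_congr rfl fun v hv => ?_
    rw [mem_Ico] at hv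
    rw [← sum_filter, ← sum_mul]
    congr 1
    refine sum_congr ?_ fun _ _ => rfl
    ext d
    rw [mem_filter, mem_PB, mem_PB]
    constructor
    · rintro ⟨⟨-, a2⟩, a1⟩; exact ⟨a1, a2⟩
    · rintro ⟨a1, a2⟩; exact ⟨⟨by omega, a2⟩, a1⟩
  rw [e1]
  refine (norm_add_le _ _).trans ?_
  have nr : ∀ {r : ℝ}, 0 ≤ r → ‖(r : ℂ)‖ = r := fun {r} h => by
    rw [Complex.norm_real, Real.norm_of_nonneg h]
  have e3 : ‖(∑ d ∈ PB Y, χ d) * ((1 / Y : ℝ) : ℂ)‖ ≤ 16 := by
    rw [norm_mul, nr (by positivity), mul_one_div, div_le_iff₀ hYr]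
    exact chP_le' hch hY
  have e4 : ∀ v ∈ Ico 1 Y, ‖(∑ d ∈ PB v, χ d) * ((1 / ((v : ℝ) * (v + 1)) : ℝ) : ℂ)‖ ≤
      (if v < N ^ 2 then 16 * (1 / ((v : ℝ) + 1)) else 0) +
      (if N ^ 2 ≤ v then 972 * N * (Real.sqrt v / (v * (v + 1))) else 0) := by
    intro v hv
    rw [mem_Ico] at hv
    have v0 : (0 : ℝ) < v := by exact_mod_cast hv.1
    have hp : (0 : ℝ) < 1 / ((v : ℝ) * (v + 1)) := by positivity
    rw [norm_mul, nr hp.le]
    by_cases h : v < N ^ 2
    · rw [if_pos h, if_neg (by omega), add_zero]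
      calc ‖∑ d ∈ PB v, χ d‖ * (1 / ((v : ℝ) * (v + 1))) ≤ (16 * v) * (1 / ((v : ℝ) * (v + 1))) :=
            mul_le_mul_of_nonneg_right (chP_le' hch hv.1) hp.le
        _ = 16 * (1 / ((v : ℝ) + 1)) := by field_simp
    · rw [if_neg h, if_pos (by omega), zero_add]
      calc ‖∑ d ∈ PB v, χ d‖ * (1 / ((v : ℝ) * (v + 1))) ≤
            (972 * N * Real.sqrt v) * (1 / ((v : ℝ) * (v + 1))) :=
            mul_le_mul_of_nonneg_right (hle v hv.1) hp.le
        _ = 972 * N * (Real.sqrt v / (v * (v + 1))) := by ring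
  have e5 : ‖∑ v ∈ Ico 1 Y, (∑ d ∈ PB v, χ d) * ((1 / ((v : ℝ) * (v + 1)) : ℝ) : ℂ)‖ ≤
      16 * (2 * lg N) + 1944 := by
    refine (norm_sum_le _ _).trans ((sum_le_sum e4).trans ?_)
    rw [sum_add_distrib]
    have hN2 : 1 ≤ N ^ 2 := Nat.one_le_pow _ _ hN1
    have a1 : ∑ v ∈ Ico 1 Y, (if v < N ^ 2 then 16 * (1 / ((v : ℝ) + 1)) else 0) ≤ 16 * (2 * lg N) := by
      rw [← sum_filter, ← mul_sum]
      have h2 : ∑ v ∈ (Ico 1 Y).filter (fun v => v < N ^ 2), (1 : ℝ) / ((v : ℝ) + 1) ≤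
          ∑ v ∈ Ico 1 (N ^ 2), (1 : ℝ) / ((v : ℝ) + 1) := by
        refine sum_le_sum_of_subset_of_nonneg ?_ (fun _ _ _ => by positivity)
        intro v hv
        rw [mem_filter, mem_Ico] at hv
        rw [mem_Ico]
        exact ⟨hv.1.1, hv.2⟩
      have h3 := harm_le (N ^ 2) hN2
      have h4 : Real.log ((N ^ 2 : ℕ) : ℝ) = 2 * Real.log N := by
        push_cast
        rw [Real.log_pow]
        push_cast
        ring
      rw [h4] at h3
      have h5 := log_le_lg hN1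
      linarith
    have a2 : ∑ v ∈ Ico 1 Y, (if N ^ 2 ≤ v then 972 * (N : ℝ) * (Real.sqrt v / (v * (v + 1))) else 0) ≤ 1944 := by
      rw [← sum_filter, ← mul_sum]
      have h2 : ∑ v ∈ (Ico 1 Y).filter (fun v => N ^ 2 ≤ v), Real.sqrt v / ((v : ℝ) * (v + 1)) ≤
          ∑ v ∈ Ico (N ^ 2) (max Y (N ^ 2)), Real.sqrt v / ((v : ℝ) * (v + 1)) := by
        refine sum_le_sum_of_subset_of_nonneg ?_ (fun _ _ _ => by positivity)
        intro v hv
        rw [mem_filter, mem_Ico] at hv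
        rw [mem_Ico]
        exact ⟨hv.2, lt_of_lt_of_le hv.1.2 (le_max_left _ _)⟩
      have h3 := sqrt_tel (N ^ 2) hN2 (max Y (N ^ 2)) (le_max_right _ _)
      have h4 : Real.sqrt ((N ^ 2 : ℕ) : ℝ) = N := by
        push_cast
        exact Real.sqrt_sq (Nat.cast_nonneg _)
      rw [h4] at h3
      have h5 : (0 : ℝ) ≤ 1 / Real.sqrt ((max Y (N ^ 2) : ℕ) : ℝ) := by positivity
      have Nr : (0 : ℝ) < N := by exact_mod_cast hN1
      calc 972 * (N : ℝ) * ∑ v ∈ (Ico 1 Y).filter (fun v => N ^ 2 ≤ v), Real.sqrt v / ((v : ℝ) * (v + 1))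
          ≤ 972 * N * (2 * (1 / N)) := by
            apply mul_le_mul_of_nonneg_left _ (by positivity)
            linarith
        _ = 1944 := by field_simp; norm_num
    linarith
  linarith

/-- **the mean value for a twisted character** -/
theorem hallP {t : ZMod 3} (ht : t ≠ 0) {A B : Ei} (hA : PS A) (hB : PS B) (T : ℕ) :
    ∑ n ∈ SB T, mf (fun π => (1 + 2 * (ez (t * yd π) * xab A B π).re) / 3) n ≤
      5544 * (lg (nrm A * nrm B)) ^ (1 / 3 : ℝ) * (T * (lg T) ^ (-(1 / 3) : ℝ)) := by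
  classical
  rcases Nat.eq_zero_or_pos T with h0 | hT
  · rw [SB_empty h0, sum_empty]
    have h2 := lg_pos T
    have h3 := lg_pos (nrm A * nrm B)
    positivity
  have hch := ch_cp t hA hB
  have hl := one_le_lg (nrm A * nrm B)
  have hlT := lg_pos T
  have hAA : ∑ n ∈ PB (T ^ 3), mf (fun π => 3 * ((1 + 2 * (ch t A B π).re) / 3)) n / nrm n ≤
      (18399744 * lg (nrm A * nrm B)) * lg T ^ 2 := by
    have e1 : (fun π : Ei => 3 * ((1 + 2 * (ch t A B π).re) / 3)) = fun π => 1 + 2 * (ch t A B π).re := by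
      funext π; ring
    rw [e1]
    refine (conv_boundP hch (chP_log ht hA hB) (T ^ 3)).trans ?_
    have e5 := lg_cube T
    have e6 := lg_pos (T ^ 3)
    have e7 : (32 * lg (T ^ 3)) ^ 2 ≤ (96 * lg T) ^ 2 := by
      apply pow_le_pow_left₀ (by positivity)
      linarith
    calc (32 * lg (T ^ 3)) ^ 2 * (1992 * lg (nrm A * nrm B)) ≤ (96 * lg T) ^ 2 * (1992 * lg (nrm A * nrm B)) := by
          apply mul_le_mul_of_nonneg_right e7 (by positivity)
      _ = 18358272 * (lg (nrm A * nrm B) * lg T ^ 2) := by ring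
      _ ≤ 18399744 * (lg (nrm A * nrm B) * lg T ^ 2) := by
          have : 0 ≤ lg (nrm A * nrm B) * lg T ^ 2 := by positivity
          linarith
      _ = _ := by ring
  have hv := fun π => hch.val π
  have h2 := hall_aux (g := fun π => (1 + 2 * (ch t A B π).re) / 3)
    (fun π => by have := re_nonneg (hv π); linarith)
    (fun π => by have := re_le (hv π); linarith) hT (by linarith) hAA
  refine (le_of_eq (by rfl)).trans (h2.trans (le_of_eq ?_))
  have e : (18399744 * lg (nrm A * nrm B)) ^ (1 / 3 : ℝ) = 264 * (lg (nrm A * nrm B)) ^ (1 / 3 : ℝ) := by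
    rw [Real.mul_rpow (by norm_num) (by linarith)]
    congr 1
    rw [show (18399744 : ℝ) = 264 ^ (3 : ℝ) by norm_num, ← Real.rpow_mul (by norm_num)]
    norm_num
  rw [e]
  ring

/-- part D2 of project CTK3 -/
theorem t_HAL3 : S_HAL3 :=
  ⟨5544, by norm_num, fun _ _ _ ht hA hB T => hallP ht hA hB T⟩

end Pool.Agent.E8helper51.CTK3
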